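import Pool.Agent.Helper20.HP.Data2

/-!
# Q6b: the estimate of the explicit part of the curvature formula
-/

open Filter Metric Module Set
open scoped Topology ContDiff RealInnerProductSpace Manifold Quaternion

namespace Pool.Agent.Helper62.HP
open Pool.Agent.Helper20.HP
open Pool.Agent.Helper20.PC

/-! ### cross product -/

lemma inner3 (a b : E3) : (⟪a, b⟫ : ℝ) = a 0 * b 0 + a 1 * b 1 + a 2 * b 2 := by
  rw [PiLp.inner_apply]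
  simp [Fin.sum_univ_three]
  ring

lemma normsq3 (a : E3) : ‖a‖ ^ 2 = a 0 ^ 2 + a 1 ^ 2 + a 2 ^ 2 := by
  rw [← real_inner_self_eq_norm_sq, inner3]; ring

lemma cr_norm_sq (a b : E3) : ‖cr a b‖ ^ 2 = ‖a‖ ^ 2 * ‖b‖ ^ 2 - (⟪a, b⟫ : ℝ) ^ 2 := by
  rw [normsq3, normsq3, normsq3, inner3]
  simp [cr]
  ring

lemma cr_norm_le (a b : E3) : ‖cr a b‖ ≤ ‖a‖ * ‖b‖ := by
  refine le_of_sq_le_sq ?_ (by positivity)
  rw [cr_norm_sq, mul_pow]; nlinarith [sq_nonneg (⟪a, b⟫ : ℝ)]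

lemma cr_cr_inner (a b : E3) : (⟪cr a (cr a b), b⟫ : ℝ) = - ‖cr a b‖ ^ 2 := by
  rw [normsq3, inner3]
  simp [cr]
  ring

lemma cr_cr_inner' (a b : E3) : (⟪cr b (cr b a), a⟫ : ℝ) = - ‖cr a b‖ ^ 2 := by
  rw [normsq3, inner3]
  simp [cr]
  ring

/-! ### real inequalities -/

lemma low {c s k : ℝ} (h : |s| ≤ k) : -(k * |c|) ≤ c * s := by
  have h2 : |c * s| ≤ k * |c| := by
    rw [abs_mul, mul_comm]; exact mul_le_mul_of_nonneg_right h (abs_nonneg c)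
  exact (abs_le.mp h2).1

lemma bd2 {f B α β x y : ℝ} (hB : 0 ≤ B) (hx : 0 ≤ x) (hy : 0 ≤ y) (h : |f| ≤ B * x * y)
    (h1 : x ≤ α) (h2 : y ≤ β) : |f| ≤ B * α * β := by
  refine h.trans ?_
  have hα : 0 ≤ α := hx.trans h1
  gcongr

lemma mul_bd {s t a b : ℝ} (h1 : |s| ≤ a) (h2 : |t| ≤ b) : |s * t| ≤ a * b := by
  rw [abs_mul]; exact mul_le_mul h1 h2 (abs_nonneg _) ((abs_nonneg _).trans h1)

/-- the purely real estimate -/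
lemma real_est {δ B xx z m1 m2 ca sa cb sb : ℝ} (hδ : 0 < δ) (hδ1 : δ ≤ 1) (hB : 1 ≤ B)
    (hδB : δ ^ 2 * B ≤ 1/100)
    (exx : xx = ca * cb) (ez : z = sa * sb) (em1 : m1 = ca * sb) (em2 : m2 = sa * cb)
    {K moo a b c Sww SUwV SVVU mwo s11 l1 l2 e1 e2 q1 q2 r1 r2 r3 r4 s1 s2 iUo iVo eU eV p1 p2 t1 t2
      mt mtt : ℝ}
    (hmoo : |moo| ≤ 11/10 * B ^ 2) (ha : |a| ≤ 11/10 * B) (hb : |b| ≤ 11/10 * B) (hc : |c| ≤ 11/10 * B)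
    (hSww : |Sww| ≤ 12/10 * B) (hSUwV : |SUwV| ≤ 12/10 * B) (hSVVU : |SVVU| ≤ 12/10 * B)
    (hmwo : |mwo| ≤ 11/10 * B) (hs11 : |s11| ≤ 22/10 * B)
    (he1 : |e1| ≤ 11/10 * B ^ 2) (he2 : |e2| ≤ 11/10 * B ^ 2)
    (hr1 : |r1| ≤ 11/10 * B) (hr2 : |r2| ≤ 11/10 * B) (hr3 : |r3| ≤ 11/10 * B ^ 2) (hr4 : |r4| ≤ 11/10 * B ^ 2)
    (hs1 : |s1| ≤ 11/10 * B) (hs2 : |s2| ≤ 11/10 * B) (hiUo : |iUo| ≤ 11/10 * B) (hiVo : |iVo| ≤ 11/10 * B)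
    (heU : |eU| ≤ 11/10 * B ^ 2) (heV : |eV| ≤ 11/10 * B ^ 2)
    (hp1 : |p1| ≤ 11/10 * B) (hp2 : |p2| ≤ 11/10 * B) (ht1 : |t1| ≤ 11/10 * B) (ht2 : |t2| ≤ 11/10 * B)
    (hmt : 0 ≤ mt)
    (hmtt : mtt ≤ 2 * B ^ 2 * (δ ^ 2 * |ca * sa| + δ * sa ^ 2) * (δ ^ 2 * |cb * sb| + δ * sb ^ 2)) :
    K * xx ^ 2 + (1/4) * (δ ^ 2)⁻¹ * z ^ 2
      + δ * xx * (- m1 * l1 + m2 * l2)
      + δ ^ 2 * (m1 ^ 2 * ((1/2) * q1 + (1/4) * iVo ^ 2) + m2 ^ 2 * ((1/2) * q2 + (1/4) * iUo ^ 2))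
      - 1000 * B ^ 3 * Er δ xx z m1 m2
    ≤ K * xx ^ 2 - (3/4) * δ ^ 2 * xx ^ 2 * moo
      + (δ ^ 2)⁻¹ * z ^ 2 * ((1/4) * (1 + δ ^ 2 * (a + b + δ ^ 2 * (a * b - c ^ 2)))
          + δ ^ 2 * ((3/4) * Sww + (1/2) * SUwV + (1/2) * SVVU))
      - (3/2) * xx * z * mwo - δ ^ 2 * xx * z * s11
      + δ * xx * (- m1 * (l1 - δ ^ 2 * e1) + m2 * (l2 - δ ^ 2 * e2))
      + δ ^ 2 * ((1/2) * m1 ^ 2 * q1 + (1/2) * m2 ^ 2 * q2)
      + (3/2) * δ * z * (m1 * r1 - m2 * r2)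
      + (3/2) * δ ^ 3 * xx * (m1 * r3 - m2 * r4)
      + ((1/2) * δ ^ 2 * z * s1 - (1/2) * δ * m2 * (iUo - δ ^ 2 * eU)) ^ 2
      + ((1/2) * δ ^ 2 * z * s2 + (1/2) * δ * m1 * (iVo - δ ^ 2 * eV)) ^ 2
      - ((1/2) * δ ^ 2 * sa ^ 2 * p1) * ((1/2) * δ ^ 2 * sb ^ 2 * t1 - δ * sb * cb * (iVo - δ ^ 2 * eV))
      - ((1/2) * δ ^ 2 * sa ^ 2 * p2 + δ * sa * ca * (iUo - δ ^ 2 * eU)) * ((1/2) * δ ^ 2 * sb ^ 2 * t2)
      + mt - mtt := by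
  have hB0 : 0 < B := lt_of_lt_of_le one_pos hB
  have hB2 : B ^ 2 ≤ B ^ 3 := pow_le_pow_right₀ hB (by norm_num)
  have hB1 : B ≤ B ^ 2 := le_self_pow₀ hB (by norm_num)
  have hB3 : B ≤ B ^ 3 := hB1.trans hB2
  have hβ : 0 < B ^ 3 := pow_pos hB0 3
  have hβ1 : 1 ≤ B ^ 3 := hB.trans hB3
  have hd2 : δ ^ 2 ≤ 1 := pow_le_one₀ hδ.le hδ1
  have hd20 : 0 < δ ^ 2 := pow_pos hδ 2
  have hd3 : δ ^ 3 ≤ 1 := pow_le_one₀ hδ.le hδ1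
  have hd30 : 0 < δ ^ 3 := pow_pos hδ 3
  have hd4 : δ ^ 4 ≤ 1 := pow_le_one₀ hδ.le hδ1
  have hd40 : 0 < δ ^ 4 := pow_pos hδ 4
  have hd1 : |δ| ≤ 1 := by rw [abs_of_pos hδ]; exact hδ1
  have hd2' : |δ ^ 2| ≤ 1 := by rw [abs_of_pos hd20]; exact hd2
  have hd4' : |δ ^ 4| ≤ 1 := by rw [abs_of_pos hd40]; exact hd4
  have hδB2 : δ ^ 2 * B ^ 2 ≤ 1/100 * B := by
    calc δ ^ 2 * B ^ 2 = (δ ^ 2 * B) * B := by ring
      _ ≤ 1/100 * B := mul_le_mul_of_nonneg_right hδB hB0.le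
  -- the individual pieces
  have P2 : -(B ^ 3 * |δ ^ 2 * xx ^ 2|) ≤ (δ ^ 2 * xx ^ 2) * (-(3/4) * moo) := by
    apply low
    have := mul_bd (show |(-(3/4) : ℝ)| ≤ 3/4 by norm_num [abs_neg, abs_of_pos]) hmoo
    linarith
  have P3a : |a * b - c ^ 2| ≤ 242/100 * B ^ 2 := by
    have h1 := mul_bd ha hb
    have h2 := mul_bd hc hc
    have h3 := abs_sub (a * b) (c * c)
    rw [pow_two c]
    linarith
  have P3b : |δ ^ 2 * (a * b - c ^ 2)| ≤ B := by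
    rw [abs_mul, abs_of_pos hd20]
    have : δ ^ 2 * |a * b - c ^ 2| ≤ δ ^ 2 * (242/100 * B ^ 2) := by gcongr
    linarith
  have P3 : -((5 * B ^ 3) * |z ^ 2|) ≤ (z ^ 2) * ((1/4) * (a + b + δ ^ 2 * (a * b - c ^ 2))
      + ((3/4) * Sww + (1/2) * SUwV + (1/2) * SVVU)) := by
    apply low
    rw [abs_le] at *
    constructor <;> linarith [P3b.1, P3b.2, ha.1, ha.2, hb.1, hb.2, hSww.1, hSww.2, hSUwV.1, hSUwV.2,
      hSVVU.1, hSVVU.2]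
  have P4 : -((2 * B ^ 3) * |xx * z|) ≤ (xx * z) * (-(3/2) * mwo) := by
    apply low
    have := mul_bd (show |(-(3/2) : ℝ)| ≤ 3/2 by norm_num [abs_neg, abs_of_pos]) hmwo
    linarith
  have P5 : -((3 * B ^ 3) * |xx * z|) ≤ (xx * z) * (-δ ^ 2 * s11) := by
    apply low
    have := mul_bd (show |(-δ ^ 2 : ℝ)| ≤ 1 by rw [abs_neg]; exact hd2') hs11
    linarith
  have P6a : -((2 * B ^ 3) * |δ ^ 3 * xx * m1|) ≤ (δ ^ 3 * xx * m1) * e1 := by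
    apply low; linarith
  have P6b : -((2 * B ^ 3) * |δ ^ 3 * xx * m2|) ≤ (δ ^ 3 * xx * m2) * (-e2) := by
    apply low; rw [abs_neg]; linarith
  have P8a : -((2 * B ^ 3) * |δ * z * m1|) ≤ (δ * z * m1) * ((3/2) * r1) := by
    apply low
    have := mul_bd (show |((3/2) : ℝ)| ≤ 3/2 by norm_num [abs_of_pos]) hr1
    linarith
  have P8b : -((2 * B ^ 3) * |δ * z * m2|) ≤ (δ * z * m2) * (-(3/2) * r2) := by
    apply low
    have := mul_bd (show |(-(3/2) : ℝ)| ≤ 3/2 by norm_num [abs_neg, abs_of_pos]) hr2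
    linarith
  have P9a : -((2 * B ^ 3) * |δ ^ 3 * xx * m1|) ≤ (δ ^ 3 * xx * m1) * ((3/2) * r3) := by
    apply low
    have := mul_bd (show |((3/2) : ℝ)| ≤ 3/2 by norm_num [abs_of_pos]) hr3
    linarith
  have P9b : -((2 * B ^ 3) * |δ ^ 3 * xx * m2|) ≤ (δ ^ 3 * xx * m2) * (-(3/2) * r4) := by
    apply low
    have := mul_bd (show |(-(3/2) : ℝ)| ≤ 3/2 by norm_num [abs_neg, abs_of_pos]) hr4
    linarith
  have hso : |s1 * iUo| ≤ 121/100 * B ^ 2 := (mul_bd hs1 hiUo).trans (by linarith)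
  have hso' : |s2 * iVo| ≤ 121/100 * B ^ 2 := (mul_bd hs2 hiVo).trans (by linarith)
  have heo : |eU * iUo| ≤ 121/100 * B ^ 3 := (mul_bd heU hiUo).trans (by linarith)
  have heo' : |eV * iVo| ≤ 121/100 * B ^ 3 := (mul_bd heV hiVo).trans (by linarith)
  have P10a : -((2 * B ^ 3) * |δ * z * m2|) ≤ (δ * z * m2) * (-(1/2) * (δ ^ 2 * (s1 * iUo))) := by
    apply low
    have h1 := mul_bd hd2' hso
    have := mul_bd (show |(-(1/2) : ℝ)| ≤ 1/2 by norm_num [abs_neg, abs_of_pos]) h1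
    linarith
  have P10b : -((2 * B ^ 3) * |δ ^ 4 * m2 ^ 2|) ≤ (δ ^ 4 * m2 ^ 2) * (-(1/2) * (eU * iUo)) := by
    apply low
    have := mul_bd (show |(-(1/2) : ℝ)| ≤ 1/2 by norm_num [abs_neg, abs_of_pos]) heo
    linarith
  have P10c : -((2 * B ^ 3) * |δ * z * m1|) ≤ (δ * z * m1) * ((1/2) * (δ ^ 2 * (s2 * iVo))) := by
    apply low
    have h1 := mul_bd hd2' hso'
    have := mul_bd (show |((1/2) : ℝ)| ≤ 1/2 by norm_num [abs_of_pos]) h1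
    linarith
  have P10d : -((2 * B ^ 3) * |δ ^ 4 * m1 ^ 2|) ≤ (δ ^ 4 * m1 ^ 2) * (-(1/2) * (eV * iVo)) := by
    apply low
    have := mul_bd (show |(-(1/2) : ℝ)| ≤ 1/2 by norm_num [abs_neg, abs_of_pos]) heo'
    linarith
  have hmV : |iVo - δ ^ 2 * eV| ≤ 12/10 * B := by
    have h1 : |δ ^ 2 * eV| ≤ 1/10 * B := by
      rw [abs_mul, abs_of_pos hd20]
      have : δ ^ 2 * |eV| ≤ δ ^ 2 * (11/10 * B ^ 2) := by gcongr
      linarith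
    have := abs_sub iVo (δ ^ 2 * eV)
    linarith
  have hmU : |iUo - δ ^ 2 * eU| ≤ 12/10 * B := by
    have h1 : |δ ^ 2 * eU| ≤ 1/10 * B := by
      rw [abs_mul, abs_of_pos hd20]
      have : δ ^ 2 * |eU| ≤ δ ^ 2 * (11/10 * B ^ 2) := by gcongr
      linarith
    have := abs_sub iUo (δ ^ 2 * eU)
    linarith
  have P11a : -((2 * B ^ 3) * |z ^ 2|) ≤ (z ^ 2) * (-(1/4) * (δ ^ 4 * (p1 * t1))) := by
    apply low
    have h1 := mul_bd hd4' (mul_bd hp1 ht1)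
    have := mul_bd (show |(-(1/4) : ℝ)| ≤ 1/4 by norm_num [abs_neg, abs_of_pos]) h1
    linarith
  have P11b : -((2 * B ^ 3) * |δ * z * m2|) ≤ (δ * z * m2) * ((1/2) * (δ ^ 2 * (p1 * (iVo - δ ^ 2 * eV)))) := by
    apply low
    have h1 := mul_bd hd2' (mul_bd hp1 hmV)
    have := mul_bd (show |((1/2) : ℝ)| ≤ 1/2 by norm_num [abs_of_pos]) h1
    linarith
  have P11c : -((2 * B ^ 3) * |z ^ 2|) ≤ (z ^ 2) * (-(1/4) * (δ ^ 4 * (p2 * t2))) := by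
    apply low
    have h1 := mul_bd hd4' (mul_bd hp2 ht2)
    have := mul_bd (show |(-(1/4) : ℝ)| ≤ 1/4 by norm_num [abs_neg, abs_of_pos]) h1
    linarith
  have P11d : -((2 * B ^ 3) * |δ * z * m1|) ≤ (δ * z * m1) * (-(1/2) * (δ ^ 2 * (t2 * (iUo - δ ^ 2 * eU)))) := by
    apply low
    have h1 := mul_bd hd2' (mul_bd ht2 hmU)
    have := mul_bd (show |(-(1/2) : ℝ)| ≤ 1/2 by norm_num [abs_neg, abs_of_pos]) h1
    linarith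
  have P12 : mtt ≤ 2 * B ^ 3 * (|xx * z| + |δ * z * m1| + |δ * z * m2| + |z ^ 2|) := by
    refine hmtt.trans ?_
    have e1 : (δ ^ 2 * |ca * sa| + δ * sa ^ 2) * (δ ^ 2 * |cb * sb| + δ * sb ^ 2)
        = δ ^ 4 * |xx * z| + δ ^ 2 * |δ * z * m1| + δ ^ 2 * |δ * z * m2| + δ ^ 2 * |z ^ 2| := by
      rw [exx, ez, em1, em2]
      simp only [abs_mul, abs_pow, abs_of_pos hδ]
      have h1 := sq_abs sa
      have h2 := sq_abs sb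
      rw [← h1, ← h2]
      ring
    rw [mul_assoc, e1]
    have n1 := abs_nonneg (xx * z)
    have n2 := abs_nonneg (δ * z * m1)
    have n3 := abs_nonneg (δ * z * m2)
    have n4 := abs_nonneg (z ^ 2)
    have f : δ ^ 4 * |xx * z| + δ ^ 2 * |δ * z * m1| + δ ^ 2 * |δ * z * m2| + δ ^ 2 * |z ^ 2|
        ≤ |xx * z| + |δ * z * m1| + |δ * z * m2| + |z ^ 2| := by
      have g1 : δ ^ 4 * |xx * z| ≤ 1 * |xx * z| := by gcongr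
      have g2 : δ ^ 2 * |δ * z * m1| ≤ 1 * |δ * z * m1| := by gcongr
      have g3 : δ ^ 2 * |δ * z * m2| ≤ 1 * |δ * z * m2| := by gcongr
      have g4 : δ ^ 2 * |z ^ 2| ≤ 1 * |z ^ 2| := by gcongr
      linarith
    have : 2 * B ^ 2 ≤ 2 * B ^ 3 := by linarith
    exact mul_le_mul this f (by positivity) (by positivity)
  have hEr : Er δ xx z m1 m2 = |δ ^ 2 * xx ^ 2| + |z ^ 2| + |xx * z| + |δ * z * m1| + |δ * z * m2|
      + |δ ^ 3 * xx * m1| + |δ ^ 3 * xx * m2| + |δ ^ 4 * m1 ^ 2| + |δ ^ 4 * m2 ^ 2| := by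
    have h1 := sq_abs xx
    have h2 := sq_abs z
    have h3 := sq_abs m1
    have h4 := sq_abs m2
    simp only [Er, abs_mul, abs_pow, abs_of_pos hδ]
    rw [← h1, ← h2, ← h3, ← h4]
    ring
  have n0 := mul_nonneg hβ.le (abs_nonneg (δ ^ 2 * xx ^ 2))
  have n1 := mul_nonneg hβ.le (abs_nonneg (xx * z))
  have n2 := mul_nonneg hβ.le (abs_nonneg (δ * z * m1))
  have n3 := mul_nonneg hβ.le (abs_nonneg (δ * z * m2))
  have n4 := mul_nonneg hβ.le (abs_nonneg (z ^ 2))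
  have n5 := mul_nonneg hβ.le (abs_nonneg (δ ^ 3 * xx * m1))
  have n6 := mul_nonneg hβ.le (abs_nonneg (δ ^ 3 * xx * m2))
  have n7 := mul_nonneg hβ.le (abs_nonneg (δ ^ 4 * m1 ^ 2))
  have n8 := mul_nonneg hβ.le (abs_nonneg (δ ^ 4 * m2 ^ 2))
  have sq1 := sq_nonneg ((1/2) * δ ^ 2 * z * s1 + (1/2) * δ ^ 3 * m2 * eU)
  have sq2 := sq_nonneg ((1/2) * δ ^ 2 * z * s2 - (1/2) * δ ^ 3 * m1 * eV)
  have I3 : (δ ^ 2)⁻¹ * z ^ 2 * ((1/4) * (1 + δ ^ 2 * (a + b + δ ^ 2 * (a * b - c ^ 2)))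
          + δ ^ 2 * ((3/4) * Sww + (1/2) * SUwV + (1/2) * SVVU))
      = (1/4) * (δ ^ 2)⁻¹ * z ^ 2 + (z ^ 2) * ((1/4) * (a + b + δ ^ 2 * (a * b - c ^ 2))
      + ((3/4) * Sww + (1/2) * SUwV + (1/2) * SVVU)) := by
    field_simp
    ring
  have I10a : ((1/2) * δ ^ 2 * z * s1 - (1/2) * δ * m2 * (iUo - δ ^ 2 * eU)) ^ 2
      = ((1/2) * δ ^ 2 * z * s1 + (1/2) * δ ^ 3 * m2 * eU) ^ 2
        + (δ * z * m2) * (-(1/2) * (δ ^ 2 * (s1 * iUo))) + (δ ^ 4 * m2 ^ 2) * (-(1/2) * (eU * iUo))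
        + δ ^ 2 * (m2 ^ 2 * ((1/4) * iUo ^ 2)) := by ring
  have I10b : ((1/2) * δ ^ 2 * z * s2 + (1/2) * δ * m1 * (iVo - δ ^ 2 * eV)) ^ 2
      = ((1/2) * δ ^ 2 * z * s2 - (1/2) * δ ^ 3 * m1 * eV) ^ 2
        + (δ * z * m1) * ((1/2) * (δ ^ 2 * (s2 * iVo))) + (δ ^ 4 * m1 ^ 2) * (-(1/2) * (eV * iVo))
        + δ ^ 2 * (m1 ^ 2 * ((1/4) * iVo ^ 2)) := by ring
  have I11a : ((1/2) * δ ^ 2 * sa ^ 2 * p1) * ((1/2) * δ ^ 2 * sb ^ 2 * t1 - δ * sb * cb * (iVo - δ ^ 2 * eV))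
      = - ((z ^ 2) * (-(1/4) * (δ ^ 4 * (p1 * t1))))
        - (δ * z * m2) * ((1/2) * (δ ^ 2 * (p1 * (iVo - δ ^ 2 * eV)))) := by
    rw [ez, em2]; ring
  have I11b : ((1/2) * δ ^ 2 * sa ^ 2 * p2 + δ * sa * ca * (iUo - δ ^ 2 * eU)) * ((1/2) * δ ^ 2 * sb ^ 2 * t2)
      = - ((z ^ 2) * (-(1/4) * (δ ^ 4 * (p2 * t2))))
        - (δ * z * m1) * (-(1/2) * (δ ^ 2 * (t2 * (iUo - δ ^ 2 * eU)))) := by
    rw [ez, em1]; ring
  rw [I3, I10a, I10b, I11a, I11b, hEr]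
  linarith [P2, P3, P4, P5, P6a, P6b, P8a, P8b, P9a, P9b, P10a, P10b, P10c, P10d, P11a, P11b, P11c, P11d, P12]

lemma norm_of_Mh {κ ε T δ B : ℝ} {x U : E3} (hδB : δ ^ 2 * B ≤ 1/100)
    (hS : ∀ a b, |Sb κ ε T x a b| ≤ B * ‖a‖ * ‖b‖) (hUU : Mh κ ε T δ x U U = 1) : ‖U‖ ≤ 101/100 := by
  have h1 : ‖U‖ ^ 2 - δ ^ 2 * Sb κ ε T x U U = 1 := by
    rw [← real_inner_self_eq_norm_sq]; exact hUU
  have h2 := (abs_le.mp (hS U U)).2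
  have h3 : δ ^ 2 * Sb κ ε T x U U ≤ δ ^ 2 * (B * ‖U‖ * ‖U‖) := by gcongr
  have h4 : δ ^ 2 * (B * ‖U‖ * ‖U‖) = (δ ^ 2 * B) * ‖U‖ ^ 2 := by ring
  have h5 : (δ ^ 2 * B) * ‖U‖ ^ 2 ≤ 1/100 * ‖U‖ ^ 2 := by gcongr
  have h6 : ‖U‖ ^ 2 ≤ (101/100) ^ 2 := by norm_num; linarith
  exact le_of_sq_le_sq h6 (by norm_num)

lemma Mh_bd {κ ε T δ B : ℝ} {x : E3} (hδB : δ ^ 2 * B ≤ 1/100)
    (hS : ∀ a b, |Sb κ ε T x a b| ≤ B * ‖a‖ * ‖b‖) (a b : E3) :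
    |Mh κ ε T δ x a b| ≤ 101/100 * ‖a‖ * ‖b‖ := by
  have h1 := abs_real_inner_le_norm a b
  have h2 : |δ ^ 2 * Sb κ ε T x a b| ≤ 1/100 * (‖a‖ * ‖b‖) := by
    rw [abs_mul, abs_of_nonneg (sq_nonneg δ)]
    calc δ ^ 2 * |Sb κ ε T x a b| ≤ δ ^ 2 * (B * ‖a‖ * ‖b‖) := by gcongr; exact hS a b
      _ = (δ ^ 2 * B) * (‖a‖ * ‖b‖) := by ring
      _ ≤ 1/100 * (‖a‖ * ‖b‖) := by gcongr
  have h3 := abs_sub (⟪a, b⟫ : ℝ) (δ ^ 2 * Sb κ ε T x a b)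
  unfold Mh
  linarith

lemma Mh_low {κ ε T δ B : ℝ} {x : E3} (hδB : δ ^ 2 * B ≤ 1/100)
    (hS : ∀ a b, |Sb κ ε T x a b| ≤ B * ‖a‖ * ‖b‖) (a : E3) :
    99/100 * ‖a‖ ^ 2 ≤ Mh κ ε T δ x a a := by
  have h2 := (abs_le.mp (hS a a)).2
  have h3 : δ ^ 2 * Sb κ ε T x a a ≤ δ ^ 2 * (B * ‖a‖ * ‖a‖) := by gcongr
  have h4 : δ ^ 2 * (B * ‖a‖ * ‖a‖) = (δ ^ 2 * B) * ‖a‖ ^ 2 := by ring
  have h5 : (δ ^ 2 * B) * ‖a‖ ^ 2 ≤ 1/100 * ‖a‖ ^ 2 := by gcongr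
  unfold Mh
  rw [real_inner_self_eq_norm_sq]
  linarith

/-- bound of the functional defining `tu`. -/
lemma fun_bd {κ ε T δ B A : ℝ} {x X U : E3} (hδ : 0 < δ) (hB : 1 ≤ B)
    (hS : ∀ a b, |Sb κ ε T x a b| ≤ B * ‖a‖ * ‖b‖) (hS1 : ∀ a b, |S1 κ ε T x X a b| ≤ B * ‖a‖ * ‖b‖)
    (hU : ‖U‖ ≤ 101/100) (sa : ℝ) (e : E3) :
    |-(δ ^ 2 * A * S1 κ ε T x X U e + δ * sa ^ 2 * Sb κ ε T x U (cr U e))|
      ≤ (103/100 * B * (δ ^ 2 * |A| + δ * sa ^ 2)) * ‖e‖ := by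
  have hB0 : 0 < B := lt_of_lt_of_le one_pos hB
  have hU0 := norm_nonneg U
  have he0 := norm_nonneg e
  rw [abs_neg]
  have h1 : |δ ^ 2 * A * S1 κ ε T x X U e| ≤ (δ ^ 2 * |A|) * (103/100 * B * ‖e‖) := by
    rw [abs_mul, abs_mul, abs_of_pos (pow_pos hδ 2)]
    have : |S1 κ ε T x X U e| ≤ 103/100 * B * ‖e‖ := by
      refine (hS1 U e).trans ?_
      have : B * ‖U‖ * ‖e‖ ≤ B * (101/100) * ‖e‖ := by gcongr
      have h0 : 0 ≤ B * ‖e‖ := by positivity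
      linarith
    gcongr
  have h2 : |δ * sa ^ 2 * Sb κ ε T x U (cr U e)| ≤ (δ * sa ^ 2) * (103/100 * B * ‖e‖) := by
    rw [abs_mul, abs_of_nonneg (show 0 ≤ δ * sa ^ 2 by positivity)]
    have : |Sb κ ε T x U (cr U e)| ≤ 103/100 * B * ‖e‖ := by
      refine (hS U _).trans ?_
      have h3 := cr_norm_le U e
      have : B * ‖U‖ * ‖cr U e‖ ≤ B * (101/100) * (101/100 * ‖e‖) := by
        have : ‖cr U e‖ ≤ 101/100 * ‖e‖ := h3.trans (by gcongr)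
        gcongr
      have h0 : 0 ≤ B * ‖e‖ := by positivity
      linarith
    gcongr
  have h3 := abs_add_le (δ ^ 2 * A * S1 κ ε T x X U e) (δ * sa ^ 2 * Sb κ ε T x U (cr U e))
  linarith

-- Q6b : the estimate; purely real-variable + inner product estimates
theorem num3_lower {κ ε T δ B : ℝ} (hδ : 0 < δ) (hδB : δ ^ 2 * B ≤ 1/100) (hδ1 : δ ≤ 1)
    {x X U V : E3} (hx : ‖x‖ = 1) (hX : ‖X‖ = 1) (hxX : ⟪x, X⟫ = 0)
    (h1 : Bd κ ε T B x X) (h2 : Bd κ ε T B x (cr x X)) (h3 : Bd κ ε T B x ((√2)⁻¹ • (X + cr x X)))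
    (hUU : Mh κ ε T δ x U U = 1) (hVV : Mh κ ε T δ x V V = 1) (hUV : Mh κ ε T δ x U V = 0)
    {ca sa cb sb : ℝ} (ha : ca ^ 2 + sa ^ 2 = 1) (hb : cb ^ 2 + sb ^ 2 = 1) {t tu tv : E3}
    (ht : 0 ≤ Mh κ ε T δ x t t)
    (htu : ∀ e, Mh κ ε T δ x tu e = - (δ ^ 2 * (ca * sa) * S1 κ ε T x X U e + δ * sa ^ 2 * Sb κ ε T x U (cr U e)))
    (htv : ∀ e, Mh κ ε T δ x tv e
      = - (δ ^ 2 * (cb * sb) * S1 κ ε T x (cr x X) V e + δ * sb ^ 2 * Sb κ ε T x V (cr V e))) :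
    Mt κ ε T δ x X U V (ca * cb) (sa * sb) (ca * sb) (sa * cb)
        - 1000 * B ^ 3 * Er δ (ca * cb) (sa * sb) (ca * sb) (sa * cb)
      ≤ F3 κ ε T δ x X U V ca sa cb sb + Mh κ ε T δ x t t - Mh κ ε T δ x tu tv := by
  have hB := h1.one
  have hB0 : 0 < B := lt_of_lt_of_le one_pos hB
  have hU := norm_of_Mh hδB h1.S hUU
  have hV := norm_of_Mh hδB h1.S hVV
  have hM := fun a b => Mh_bd (κ := κ) (ε := ε) (T := T) (δ := δ) hδB h1.S a b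
  have hw : ‖cr U V‖ ≤ 103/100 := by
    refine (cr_norm_le U V).trans ?_
    have : ‖U‖ * ‖V‖ ≤ 101/100 * (101/100) := by gcongr
    linarith
  have hw' : ‖cr V U‖ ≤ 103/100 := by
    refine (cr_norm_le V U).trans ?_
    have : ‖V‖ * ‖U‖ ≤ 101/100 * (101/100) := by gcongr
    linarith
  have hUw : ‖cr U (cr U V)‖ ≤ 105/100 := by
    refine (cr_norm_le U _).trans ?_
    have : ‖U‖ * ‖cr U V‖ ≤ 101/100 * (103/100) := by gcongr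
    linarith
  have hVw : ‖cr V (cr V U)‖ ≤ 105/100 := by
    refine (cr_norm_le V _).trans ?_
    have : ‖V‖ * ‖cr V U‖ ≤ 101/100 * (103/100) := by gcongr
    linarith
  have no := norm_nonneg (om κ ε x)
  -- the bound of the last term
  have hmtt : Mh κ ε T δ x tu tv
      ≤ 2 * B ^ 2 * (δ ^ 2 * |ca * sa| + δ * sa ^ 2) * (δ ^ 2 * |cb * sb| + δ * sb ^ 2) := by
    set Pu := δ ^ 2 * |ca * sa| + δ * sa ^ 2 with hPu
    set Pv := δ ^ 2 * |cb * sb| + δ * sb ^ 2 with hPv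
    have hPu0 : 0 ≤ Pu := by positivity
    have hPv0 : 0 ≤ Pv := by positivity
    have b1 : Mh κ ε T δ x tu tv ≤ (103/100 * B * Pu) * ‖tv‖ := by
      rw [htu tv]
      exact (le_abs_self _).trans (fun_bd hδ hB h1.S h1.S1 hU sa tv)
    have b2 : Mh κ ε T δ x tv tv ≤ (103/100 * B * Pv) * ‖tv‖ := by
      rw [htv tv]
      exact (le_abs_self _).trans (fun_bd hδ hB h2.S h2.S1 hV sb tv)
    have b3 := Mh_low (κ := κ) (ε := ε) (T := T) (δ := δ) hδB h1.S tv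
    have b4 : ‖tv‖ ≤ 105/100 * B * Pv := by
      rcases (norm_nonneg tv).eq_or_lt with h | h
      · rw [← h]; positivity
      · have b5 : 99/100 * ‖tv‖ ^ 2 ≤ (103/100 * B * Pv) * ‖tv‖ := b3.trans b2
        have b6 : 99/100 * ‖tv‖ ≤ 103/100 * B * Pv := by
          by_contra hcon
          push Not at hcon
          have := mul_lt_mul_of_pos_right hcon h
          linarith
        have b7 : 0 ≤ B * Pv := by positivity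
        linarith
    calc Mh κ ε T δ x tu tv ≤ (103/100 * B * Pu) * ‖tv‖ := b1
      _ ≤ (103/100 * B * Pu) * (105/100 * B * Pv) := by gcongr
      _ = (103/100 * (105/100)) * (B ^ 2 * Pu * Pv) := by ring
      _ ≤ 2 * (B ^ 2 * Pu * Pv) := by gcongr; norm_num
      _ = _ := by ring
  have hBB : 0 ≤ B ^ 2 := sq_nonneg B
  have bd : ∀ {f : ℝ} {a b : E3} {α β : ℝ}, |f| ≤ B * ‖a‖ * ‖b‖ → ‖a‖ ≤ α → ‖b‖ ≤ β → |f| ≤ B * α * β :=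
    fun h ha hb => bd2 hB0.le (norm_nonneg _) (norm_nonneg _) h ha hb
  have no := h1.om
  have nd1 := h1.dom
  have nd2 := h2.dom
  have b11 : |S11 κ ε T x X U V| ≤ 22/10 * B := by
    have g1 := bd (h3.S2 U V) hU hV
    have g2 := bd (h1.S2 U V) hU hV
    have g3 := bd (h2.S2 U V) hU hV
    unfold S11
    rw [abs_le] at *
    constructor <;> linarith [g1.1, g1.2, g2.1, g2.2, g3.1, g3.2]
  have bi : ∀ a : E3, ‖a‖ ≤ 101/100 → |(⟪a, om κ ε x⟫ : ℝ)| ≤ 11/10 * B := by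
    intro a ha
    refine (abs_real_inner_le_norm a _).trans ?_
    have : ‖a‖ * ‖om κ ε x‖ ≤ 101/100 * B := by gcongr
    linarith
  have key := real_est (ca := ca) (sa := sa) (cb := cb) (sb := sb) hδ hδ1 hB hδB rfl rfl rfl rfl
    (K := Kc κ x) (moo := Mh κ ε T δ x (om κ ε x) (om κ ε x)) (a := Sb κ ε T x U U) (b := Sb κ ε T x V V)
    (c := Sb κ ε T x U V) (Sww := Sb κ ε T x (cr U V) (cr U V)) (SUwV := Sb κ ε T x (cr U (cr U V)) V)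
    (SVVU := Sb κ ε T x (cr V (cr V U)) U) (mwo := Mh κ ε T δ x (cr U V) (om κ ε x))
    (s11 := S11 κ ε T x X U V) (l1 := ⟪V, dom κ ε x X⟫) (l2 := ⟪U, dom κ ε x (cr x X)⟫)
    (e1 := Sb κ ε T x (dom κ ε x X) V) (e2 := Sb κ ε T x (dom κ ε x (cr x X)) U)
    (q1 := S2 κ ε T x X V V) (q2 := S2 κ ε T x (cr x X) U U)
    (r1 := S1 κ ε T x X (cr U V) V) (r2 := S1 κ ε T x (cr x X) (cr U V) U)
    (r3 := S1 κ ε T x X (om κ ε x) V) (r4 := S1 κ ε T x (cr x X) (om κ ε x) U)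
    (s1 := S1 κ ε T x X U V) (s2 := S1 κ ε T x (cr x X) U V)
    (iUo := ⟪U, om κ ε x⟫) (iVo := ⟪V, om κ ε x⟫) (eU := Sb κ ε T x U (om κ ε x))
    (eV := Sb κ ε T x V (om κ ε x))
    (p1 := S1 κ ε T x X U U) (p2 := S1 κ ε T x (cr x X) U U)
    (t1 := S1 κ ε T x X V V) (t2 := S1 κ ε T x (cr x X) V V)
    (mt := Mh κ ε T δ x t t) (mtt := Mh κ ε T δ x tu tv)
    (by
      refine (hM _ _).trans ?_
      have : 101/100 * ‖om κ ε x‖ * ‖om κ ε x‖ ≤ 101/100 * B * B := by gcongr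
      linarith)
    ((bd (h1.S U U) hU hU).trans (by linarith))
    ((bd (h1.S V V) hV hV).trans (by linarith))
    ((bd (h1.S U V) hU hV).trans (by linarith))
    ((bd (h1.S _ _) hw hw).trans (by linarith))
    ((bd (h1.S _ V) hUw hV).trans (by linarith))
    ((bd (h1.S _ U) hVw hU).trans (by linarith))
    (by
      refine (hM _ _).trans ?_
      have : 101/100 * ‖cr U V‖ * ‖om κ ε x‖ ≤ 101/100 * (103/100) * B := by gcongr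
      linarith)
    b11
    ((bd (h1.S _ V) nd1 hV).trans (by linarith))
    ((bd (h1.S _ U) nd2 hU).trans (by linarith))
    ((bd (h1.S1 _ V) hw hV).trans (by linarith))
    ((bd (h2.S1 _ U) hw hU).trans (by linarith))
    ((bd (h1.S1 _ V) no hV).trans (by linarith))
    ((bd (h2.S1 _ U) no hU).trans (by linarith))
    ((bd (h1.S1 U V) hU hV).trans (by linarith))
    ((bd (h2.S1 U V) hU hV).trans (by linarith))
    (bi U hU) (bi V hV)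
    ((bd (h1.S U _) hU no).trans (by linarith))
    ((bd (h1.S V _) hV no).trans (by linarith))
    ((bd (h1.S1 U U) hU hU).trans (by linarith))
    ((bd (h2.S1 U U) hU hU).trans (by linarith))
    ((bd (h1.S1 V V) hV hV).trans (by linarith))
    ((bd (h2.S1 V V) hV hV).trans (by linarith))
    ht hmtt
  have eU : ‖U‖ ^ 2 = 1 + δ ^ 2 * Sb κ ε T x U U := by
    rw [← real_inner_self_eq_norm_sq]; unfold Mh at hUU; linarith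
  have eV : ‖V‖ ^ 2 = 1 + δ ^ 2 * Sb κ ε T x V V := by
    rw [← real_inner_self_eq_norm_sq]; unfold Mh at hVV; linarith
  have eUV : (⟪U, V⟫ : ℝ) = δ ^ 2 * Sb κ ε T x U V := by
    unfold Mh at hUV; linarith
  have ew : ‖cr U V‖ ^ 2 = 1 + δ ^ 2 * (Sb κ ε T x U U + Sb κ ε T x V V
      + δ ^ 2 * (Sb κ ε T x U U * Sb κ ε T x V V - Sb κ ε T x U V ^ 2)) := by
    rw [cr_norm_sq, eU, eV, eUV]; ring
  have E1 : - (3/4) * Mh κ ε T δ x (cr U V) (cr U V) - (1/2) * Mh κ ε T δ x (cr U (cr U V)) V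
      - (1/2) * Mh κ ε T δ x (cr V (cr V U)) U
      = (1/4) * (1 + δ ^ 2 * (Sb κ ε T x U U + Sb κ ε T x V V
      + δ ^ 2 * (Sb κ ε T x U U * Sb κ ε T x V V - Sb κ ε T x U V ^ 2)))
        + δ ^ 2 * ((3/4) * Sb κ ε T x (cr U V) (cr U V) + (1/2) * Sb κ ε T x (cr U (cr U V)) V
          + (1/2) * Sb κ ε T x (cr V (cr V U)) U) := by
    rw [← ew]
    simp only [Mh]
    rw [real_inner_self_eq_norm_sq, cr_cr_inner U V, cr_cr_inner' U V]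
    ring
  have E2 : Mh κ ε T δ x (dom κ ε x X) V = ⟪V, dom κ ε x X⟫ - δ ^ 2 * Sb κ ε T x (dom κ ε x X) V := by
    simp only [Mh]; rw [real_inner_comm]
  have E3' : Mh κ ε T δ x (dom κ ε x (cr x X)) U
      = ⟪U, dom κ ε x (cr x X)⟫ - δ ^ 2 * Sb κ ε T x (dom κ ε x (cr x X)) U := by
    simp only [Mh]; rw [real_inner_comm]
  have E4 : Mh κ ε T δ x U (om κ ε x) = ⟪U, om κ ε x⟫ - δ ^ 2 * Sb κ ε T x U (om κ ε x) := rfl
  have E5 : Mh κ ε T δ x V (om κ ε x) = ⟪V, om κ ε x⟫ - δ ^ 2 * Sb κ ε T x V (om κ ε x) := rfl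
  have eqF : F3 κ ε T δ x X U V ca sa cb sb = _ := rfl
  simp only [F3]
  rw [E1, E2, E3', E4, E5]
  exact key

end Pool.Agent.Helper62.HP
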